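import Pool.Agent.H332.LL.Defs

set_option autoImplicit false

namespace Pool.Agent.H390.LL

open Pool.Agent.H332.LL Finset

/-- telescoping in characteristic two -/
private theorem tele (n : ℕ) (f a : ℕ → ZMod 2)
    (h : ∀ i, i < n → (f (i + 1) + f i) * a (i + 1) = 0) :
    (∑ i ∈ range (n + 1), f i * (a i + a (i + 1))) = f 0 * a 0 + f n * a (n + 1) := by
  induction n with
  | zero => simp [mul_add]
  | succ n ih =>
    rw [sum_range_succ, ih (fun i hi => h i (by omega))]
    have h1 := h n (by omega)
    linear_combination h1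

theorem climb : S_climb := by
  intro r s hr hs hL hR σ h00 hrs hLmax hRmax hLmin hRmin htie hA hB
  classical
  obtain ⟨r', rfl⟩ : ∃ r', r = r' + 1 := ⟨r - 1, by omega⟩
  obtain ⟨s', rfl⟩ : ∃ s', s = s' + 1 := ⟨s - 1, by omega⟩
  simp only [Nat.add_sub_cancel]
  set τ : ℕ → ℕ → ZMod 2 := fun i j => if hR j < hL i then 1 else 0 with hτ
  set f : ℕ → ℕ → ZMod 2 := fun i j => if σ i j then 1 else 0 with hf
  have two0 : (2 : ZMod 2) = 0 := by decide
  -- boundary values
  have t00 : τ 0 0 = 0 := by simp [hτ, h00]
  have t0j : ∀ j, 0 < j → j ≤ s' + 1 → τ 0 j = 1 := by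
    intro j hj hj'
    have := hRmax j hj hj'
    simp only [hτ]
    rw [if_pos (by rw [h00]; exact this)]
  have trj : ∀ j, j ≤ s' + 1 → τ (r' + 1) j = 0 := by
    intro j hj
    simp only [hτ]
    rw [if_neg]
    rcases Nat.lt_or_ge j (s' + 1) with h | h
    · have := hRmin j h
      rw [hrs]; exact not_lt.mpr this.le
    · have : j = s' + 1 := by omega
      subst this
      rw [hrs]; exact lt_irrefl _
  have ti0 : ∀ i, i ≤ r' + 1 → τ i 0 = 0 := by
    intro i hi
    simp only [hτ]
    rw [if_neg]
    rcases Nat.eq_zero_or_pos i with h | h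
    · subst h; rw [h00]; exact lt_irrefl _
    · have := hLmax i h hi
      rw [← h00]; exact not_lt.mpr this.le
  have tis : ∀ i, i < r' + 1 → τ i (s' + 1) = 1 := by
    intro i hi
    simp only [hτ]
    rw [if_pos]
    rw [← hrs]; exact hLmin i hi
  have trs : τ (r' + 1) (s' + 1) = 0 := trj _ le_rfl
  -- middle terms
  have midA : ∀ i j, i < r' → j < s' + 1 →
      (f (i + 1) j + f i j) * (τ (i + 1) j + τ (i + 1) (j + 1)) = 0 := by
    intro i j hi hj
    by_cases c1 : hR j < hL (i + 1)
    · by_cases c2 : hR (j + 1) < hL (i + 1)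
      · have : τ (i + 1) j + τ (i + 1) (j + 1) = 0 := by
          simp only [hτ]; rw [if_pos c1, if_pos c2]; decide
        rw [this, mul_zero]
      · have hne : hL (i + 1) ≠ hR (j + 1) := by
          rcases Nat.lt_or_ge (j + 1) (s' + 1) with h | h
          · exact htie (i + 1) (j + 1) (by omega) (by omega) (by omega) h
          · have hj2 : j = s' := by omega
            subst hj2
            have := hLmin (i + 1) (by omega)
            rw [← hrs]; exact ne_of_gt this
        have hiff := hA i j (by omega) hj (Or.inl ⟨c1, lt_of_le_of_ne (not_lt.mp c2) hne⟩)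
        have : f (i + 1) j = f i j := by simp only [hf, hiff]
        rw [this]
        have : f i j + f i j = 0 := by rw [← two_mul, two0, zero_mul]
        rw [this, zero_mul]
    · by_cases c2 : hR (j + 1) < hL (i + 1)
      · have hne : hL (i + 1) ≠ hR j := by
          rcases Nat.eq_zero_or_pos j with h | h
          · subst h
            have := hLmax (i + 1) (by omega) (by omega)
            rw [← h00]; exact ne_of_lt this
          · exact htie (i + 1) j (by omega) (by omega) h hj
        have hiff := hA i j (by omega) hj (Or.inr ⟨c2, lt_of_le_of_ne (not_lt.mp c1) hne⟩)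
        have : f (i + 1) j = f i j := by simp only [hf, hiff]
        rw [this]
        have : f i j + f i j = 0 := by rw [← two_mul, two0, zero_mul]
        rw [this, zero_mul]
      · have : τ (i + 1) j + τ (i + 1) (j + 1) = 0 := by
          simp only [hτ]; rw [if_neg c1, if_neg c2]; simp
        rw [this, mul_zero]
  have midB : ∀ i j, i < r' + 1 → j < s' →
      (f i (j + 1) + f i j) * (τ i (j + 1) + τ (i + 1) (j + 1)) = 0 := by
    intro i j hi hj
    by_cases c1 : hR (j + 1) < hL i
    · by_cases c2 : hR (j + 1) < hL (i + 1)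
      · have : τ i (j + 1) + τ (i + 1) (j + 1) = 0 := by
          simp only [hτ]; rw [if_pos c1, if_pos c2]; decide
        rw [this, mul_zero]
      · have hne : hL (i + 1) ≠ hR (j + 1) := by
          rcases Nat.lt_or_ge (i + 1) (r' + 1) with h | h
          · exact htie (i + 1) (j + 1) (by omega) (by omega) (by omega) (by omega)
          · have hi2 : i = r' := by omega
            subst hi2
            have := hRmin (j + 1) (by omega)
            rw [hrs]; exact ne_of_lt this
        have hiff := hB i j hi (by omega) (Or.inr ⟨lt_of_le_of_ne (not_lt.mp c2) hne, c1⟩)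
        have : f i (j + 1) = f i j := by simp only [hf, hiff]
        rw [this]
        have : f i j + f i j = 0 := by rw [← two_mul, two0, zero_mul]
        rw [this, zero_mul]
    · by_cases c2 : hR (j + 1) < hL (i + 1)
      · have hne : hL i ≠ hR (j + 1) := by
          rcases Nat.eq_zero_or_pos i with h | h
          · subst h
            have := hRmax (j + 1) (by omega) (by omega)
            rw [h00]; exact ne_of_gt this
          · exact htie i (j + 1) h hi (by omega) (by omega)
        have hiff := hB i j hi (by omega) (Or.inl ⟨lt_of_le_of_ne (not_lt.mp c1) hne, c2⟩)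
        have : f i (j + 1) = f i j := by simp only [hf, hiff]
        rw [this]
        have : f i j + f i j = 0 := by rw [← two_mul, two0, zero_mul]
        rw [this, zero_mul]
      · have : τ i (j + 1) + τ (i + 1) (j + 1) = 0 := by
          simp only [hτ]; rw [if_neg c1, if_neg c2]; simp
        rw [this, mul_zero]
  -- the two sums
  have SA : ∑ j ∈ range (s' + 1), ∑ i ∈ range (r' + 1),
      f i j * ((τ i j + τ i (j + 1)) + (τ (i + 1) j + τ (i + 1) (j + 1))) = f 0 0 := by
    have h1 : ∀ j ∈ range (s' + 1), ∑ i ∈ range (r' + 1),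
        f i j * ((τ i j + τ i (j + 1)) + (τ (i + 1) j + τ (i + 1) (j + 1))) =
        f 0 j * (τ 0 j + τ 0 (j + 1)) := by
      intro j hj
      have hj' := mem_range.mp hj
      rw [tele r' (fun i => f i j) (fun i => τ i j + τ i (j + 1)) (fun i hi => midA i j hi hj')]
      rw [trj j (by omega), trj (j + 1) (by omega)]
      simp
    rw [sum_congr rfl h1, sum_range_succ']
    have h2 : ∀ j ∈ range s', f 0 (j + 1) * (τ 0 (j + 1) + τ 0 (j + 1 + 1)) = 0 := by
      intro j hj
      have hj' := mem_range.mp hj
      rw [t0j (j + 1) (by omega) (by omega), t0j (j + 1 + 1) (by omega) (by omega)]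
      have : (1 : ZMod 2) + 1 = 0 := by decide
      rw [this, mul_zero]
    rw [sum_eq_zero h2, t00, t0j (0 + 1) (by omega) (by omega)]
    simp
  have SB : ∑ i ∈ range (r' + 1), ∑ j ∈ range (s' + 1),
      f i j * ((τ i j + τ (i + 1) j) + (τ i (j + 1) + τ (i + 1) (j + 1))) = f r' s' := by
    have h1 : ∀ i ∈ range (r' + 1), ∑ j ∈ range (s' + 1),
        f i j * ((τ i j + τ (i + 1) j) + (τ i (j + 1) + τ (i + 1) (j + 1))) =
        f i s' * (τ i (s' + 1) + τ (i + 1) (s' + 1)) := by
      intro i hi
      have hi' := mem_range.mp hi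
      rw [tele s' (fun j => f i j) (fun j => τ i j + τ (i + 1) j) (fun j hj => midB i j hi' hj)]
      rw [ti0 i (by omega), ti0 (i + 1) (by omega)]
      simp
    rw [sum_congr rfl h1, sum_range_succ]
    have h2 : ∀ i ∈ range r', f i s' * (τ i (s' + 1) + τ (i + 1) (s' + 1)) = 0 := by
      intro i hi
      have hi' := mem_range.mp hi
      rw [tis i (by omega), tis (i + 1) (by omega)]
      have : (1 : ZMod 2) + 1 = 0 := by decide
      rw [this, mul_zero]
    rw [sum_eq_zero h2, tis r' (by omega), trs]
    simp
  have tot : f 0 0 + f r' s' = 0 := by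
    rw [← SA, ← SB, sum_comm, ← sum_add_distrib]
    refine sum_eq_zero (fun i _ => ?_)
    rw [← sum_add_distrib]
    refine sum_eq_zero (fun j _ => ?_)
    linear_combination (f i j * (τ i j + τ i (j + 1) + τ (i + 1) j + τ (i + 1) (j + 1))) * two0
  have one_ne : (1 : ZMod 2) ≠ 0 := by decide
  by_cases c1 : σ 0 0
  · by_cases c2 : σ r' s'
    · exact ⟨fun _ => c2, fun _ => c1⟩
    · simp only [hf] at tot
      rw [if_pos c1, if_neg c2, add_zero] at tot
      exact absurd tot one_ne
  · by_cases c2 : σ r' s'
    · simp only [hf] at tot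
      rw [if_neg c1, if_pos c2, zero_add] at tot
      exact absurd tot one_ne
    · exact ⟨fun h => absurd h c1, fun h => absurd h c2⟩

end Pool.Agent.H390.LL
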